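import Pool.Agent.helper84.ZD.SpecA

/-!
# Project zd, module CHX: logarithmic coordinates
-/

set_option autoImplicit false

open Complex MeasureTheory

namespace Pool.Agent.ZD

open Pool.Agent.helper84.DM Pool.Agent.helper78.ED Pool.Agent.DH

lemma CHX_one (h : PHS_stmt) (g : ℝ → ℂ) : ∫ y : ℝ, ((Phi y : ℝ) : ℂ) * g y =
    ∫ x : ℝ, ((phi x : ℝ) : ℂ) * g (Real.exp x) := by
  have h0 : ∀ y, y ≤ 1 / 2 → Phi y = 0 := h.2.2.2.2.1
  have h1 : ∫ y in Set.Ioi (0 : ℝ), ((Phi y : ℝ) : ℂ) * g y = ∫ y : ℝ, ((Phi y : ℝ) : ℂ) * g y := by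
    apply setIntegral_eq_integral_of_forall_compl_eq_zero
    intro y hy
    have hy' : y ≤ 0 := by simpa using hy
    rw [h0 y (by linarith)]
    simp
  have h2 : Set.Ioi (0 : ℝ) = Real.exp '' Set.univ := by
    rw [Set.image_univ, Real.range_exp]
  rw [← h1, h2, integral_image_eq_integral_abs_deriv_smul MeasurableSet.univ
    (fun x _ => (Real.hasDerivAt_exp x).hasDerivWithinAt) Real.exp_injective.injOn,
    Measure.restrict_univ]
  apply integral_congr_ae
  refine Filter.Eventually.of_forall fun x => ?_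
  show |Real.exp x| • (((Phi (Real.exp x) : ℝ) : ℂ) * g (Real.exp x)) =
    ((phi x : ℝ) : ℂ) * g (Real.exp x)
  rw [abs_of_pos (Real.exp_pos x), Complex.real_smul, phi]
  push_cast
  ring

lemma CHX_two (h : PHS_stmt) (u ξ : ℝ) : HH u ξ =
    ∫ x : ℝ, ((phi x : ℝ) : ℂ) * Complex.exp (-(((u * x : ℝ) : ℂ) * I)) * ee (-(ξ * Real.exp x)) := by
  have h1 := CHX_one h (fun y => Complex.exp (-(((u * Real.log y : ℝ) : ℂ) * I)) * ee (-(ξ * y)))
  simp only [Real.log_exp, ← mul_assoc] at h1
  exact h1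

lemma CHX_phi (h : PHS_stmt) : Continuous phi ∧ HasCompactSupport phi := by
  have hc : Continuous Phi := h.1.continuous
  refine ⟨(hc.comp Real.continuous_exp).mul Real.continuous_exp, ?_⟩
  apply HasCompactSupport.intro (K := Set.Icc (-1) (Real.log 64)) isCompact_Icc
  intro x hx
  have h3 : Phi (Real.exp x) = 0 := by
    by_cases h1 : x < -1
    · apply h.2.2.2.2.1
      have h4 : Real.exp x ≤ Real.exp (-1) := Real.exp_le_exp.2 h1.le
      have h5 : Real.exp (-1) ≤ 1 / 2 := by
        rw [Real.exp_neg, inv_eq_one_div]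
        apply one_div_le_one_div_of_le (by norm_num)
        have := Real.add_one_le_exp (1 : ℝ)
        linarith
      linarith
    · apply h.2.2.2.2.2
      have h2 : Real.log 64 < x := by
        by_contra h6
        exact hx ⟨not_lt.1 h1, not_lt.1 h6⟩
      have h4 : Real.exp (Real.log 64) ≤ Real.exp x := Real.exp_le_exp.2 h2.le
      rwa [Real.exp_log (by norm_num)] at h4
  simp [phi, h3]

lemma CHX_int (h : PHS_stmt) (F : ℝ → ℂ) (hF : Continuous F) :
    Integrable (fun x : ℝ => ((phi x : ℝ) : ℂ) * F x) := by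
  obtain ⟨hc, hs⟩ := CHX_phi h
  apply Continuous.integrable_of_hasCompactSupport
  · exact (Complex.continuous_ofReal.comp hc).mul hF
  · apply HasCompactSupport.mul_right
    exact hs.comp_left (g := fun x : ℝ => (x : ℂ)) (by simp)

lemma CHX_ee : Continuous ee := by
  unfold ee
  fun_prop

theorem CHX (h : PHS_stmt) : CHX_stmt := by
  refine ⟨CHX_one h, CHX_two h, fun X M u => ?_⟩
  have h1 : ∀ x : ℝ, ((phi x : ℝ) : ℂ) * Complex.exp (-(((u * x : ℝ) : ℂ) * I)) * EE X M x =
      ∑ m ∈ MM M, (X : ℂ) * (((phi x : ℝ) : ℂ) * Complex.exp (-(((u * x : ℝ) : ℂ) * I)) *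
        ee (-((m : ℝ) * X * Real.exp x))) := by
    intro x
    rw [EE, Finset.mul_sum, Finset.mul_sum]
    apply Finset.sum_congr rfl
    intro m _
    ring
  unfold Bs
  simp only [h1]
  rw [integral_finsetSum, Finset.mul_sum]
  · apply Finset.sum_congr rfl
    intro m _
    rw [CHX_two h, integral_const_mul]
  · intro m _
    apply Integrable.const_mul
    simp only [mul_assoc]
    apply CHX_int h
    have h2 : Continuous fun x : ℝ => ee (-((m : ℝ) * (X * Real.exp x))) :=
      CHX_ee.comp (by fun_prop)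
    have h3 : Continuous fun x : ℝ => Complex.exp (-(((u * x : ℝ) : ℂ) * I)) := by fun_prop
    exact h3.mul h2

end Pool.Agent.ZD
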